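import Pool.Agent.Helper11x.EF.Main

set_option autoImplicit false

/-!
# Vaught's conjecture without equality

Vaught's conjecture, perfect-set form, holds for every first-order theory, in an arbitrary countable
language with relation and function symbols, whose axioms do not contain the equality symbol, and
for every Borel class of countable relational structures that is closed in both directions under
strict surjections (in particular for the classes of models of the sentences of `L_ω₁ω` without
equality).
-/

namespace Pool.Agent.Results.MP_5df2c5_lc.WithoutEquality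

open FirstOrder FirstOrder.Language

/-- The formula does not contain the equality symbol. -/
inductive NoEquality {L : FirstOrder.Language.{0, 0}} :
    ∀ {α : Type} {n : ℕ}, L.BoundedFormula α n → Prop
  | falsum {α : Type} {n : ℕ} : NoEquality (BoundedFormula.falsum : L.BoundedFormula α n)
  | rel {α : Type} {n l : ℕ} (R : L.Relations l) (ts : Fin l → L.Term (α ⊕ Fin n)) :
      NoEquality (BoundedFormula.rel R ts)
  | imp {α : Type} {n : ℕ} (φ ψ : L.BoundedFormula α n) :
      NoEquality φ → NoEquality ψ → NoEquality (BoundedFormula.imp φ ψ)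
  | all {α : Type} {n : ℕ} (φ : L.BoundedFormula α (n + 1)) :
      NoEquality φ → NoEquality (BoundedFormula.all φ)

/-- Relational structures on `ℕ` with relations of arities `a 0, a 1, ...`. -/
abbrev Str (a : ℕ → ℕ) : Type := (i : ℕ) → (Fin (a i) → ℕ) → Bool

/-- Isomorphism of structures. -/
def Iso {a : ℕ → ℕ} (x y : Str a) : Prop :=
  ∃ σ : Equiv.Perm ℕ, ∀ (i : ℕ) (v : Fin (a i) → ℕ), y i (⇑σ ∘ v) = x i v

/-- `p` is a strict surjection of `x` onto `y`: it preserves the relations in both directions. -/
def StrictSurjection {a : ℕ → ℕ} (x y : Str a) (p : ℕ → ℕ) : Prop :=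
  Function.Surjective p ∧ ∀ (i : ℕ) (v : Fin (a i) → ℕ), x i v = y i (p ∘ v)

private theorem eqf {L : FirstOrder.Language.{0, 0}} {α : Type} {n : ℕ}
    {φ : L.BoundedFormula α n} (h : NoEquality φ) : Pool.Agent.Helper11x.EF.EqFree φ := by
  induction h with
  | falsum => exact .falsum
  | rel R ts => exact .rel R ts
  | imp φ ψ _ _ ih1 ih2 => exact .imp φ ψ ih1 ih2
  | all φ _ ih => exact .all φ ih

/-- (1) Vaught's conjecture, perfect-set form, for the theories `T` in arbitrary countable languages
whose axioms do not contain the equality symbol. (2) The same for the Borel classes `K` of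
relational structures on `ℕ` such that, for all strict surjections `p` of `x` onto `y`, `x ∈ K` if
and only if `y ∈ K`. -/
theorem result :
    (∀ L : FirstOrder.Language.{0, 0}, Countable L.Symbols → ∀ T : L.Theory,
      (∀ φ ∈ T, NoEquality φ) →
      (∃ g : ℕ → L.Structure ℕ, ∀ S : L.Structure ℕ, @Theory.Model L ℕ S T →
        ∃ n : ℕ, Nonempty (@FirstOrder.Language.Equiv L ℕ ℕ S (g n))) ∨
      (∃ f : (ℕ → Bool) → L.Structure ℕ, (∀ x, @Theory.Model L ℕ (f x) T) ∧
        (∀ x y, Nonempty (@FirstOrder.Language.Equiv L ℕ ℕ (f x) (f y)) → x = y) ∧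
        (∀ (n : ℕ) (R : L.Relations n) (t : Fin n → ℕ),
          IsClopen {x | @Structure.RelMap L ℕ (f x) n R t}) ∧
        (∀ (n : ℕ) (F : L.Functions n) (t : Fin n → ℕ) (b : ℕ),
          IsOpen {x | @Structure.funMap L ℕ (f x) n F t = b}))) ∧
    (∀ (a : ℕ → ℕ) (K : Set (Str a)), MeasurableSet K →
      (∀ (x y : Str a) (p : ℕ → ℕ), StrictSurjection x y p → (x ∈ K ↔ y ∈ K)) →
      (∃ f : ℕ → Str a, ∀ x ∈ K, ∃ n, Iso (f n) x) ∨
      (∃ g : (ℕ → Bool) → Str a, Continuous g ∧ (∀ c, g c ∈ K) ∧
        ∀ c d, Iso (g c) (g d) → c = d)) := by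
  refine ⟨fun L hL T hT => ?_, fun a K hm hK => ?_⟩
  · rcases Pool.Agent.Helper11x.EF.eqfree_fo L hL T fun φ hφ => eqf (hT φ hφ) with
      h | ⟨f, h1, h2⟩
    · exact Or.inl h
    · exact Or.inr ⟨f, h1, h2.inj, h2.rl, h2.fn⟩
  · exact Pool.Agent.Helper11x.EF.eqfree_borel a K hm fun x y p hp hxy => hK x y p ⟨hp, hxy⟩

end Pool.Agent.Results.MP_5df2c5_lc.WithoutEquality
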